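import Pool.Agent.K3h10.SY.Base

/-!
# The main statement `TW`: assembly by induction on the order of `M`
-/

set_option autoImplicit false

open scoped BigOperators Classical

noncomputable section

namespace Pool.Agent.K3h10.SY

open Pool.Agent.K3h83.IN

theorem coset_pow {X : Type} [Group X] [Finite X] {q : ℕ} [hq : Fact q.Prime] {R K : Subgroup X}
    (hrel : K.relIndex R = q) (hn : ∀ x ∈ R, ∀ y ∈ K, x * y * x⁻¹ ∈ K) {g : X}
    (hg : g ∈ R) (hgK : g ∉ K) :
    (∀ r ∈ R, ∃ i : ℕ, (g ^ i)⁻¹ * r ∈ K) ∧ (∀ i : ℕ, 0 < i → i < q → g ^ i ∉ K) := by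
  have hnor : (K.subgroupOf R).Normal := ⟨fun n hn' x => hn x x.2 n hn'⟩
  have hcard : Nat.card (R ⧸ K.subgroupOf R) = q := hrel
  have hne : ((⟨g, hg⟩ : R) : R ⧸ K.subgroupOf R) ≠ 1 := by
    intro h
    rw [QuotientGroup.eq_one_iff] at h
    exact hgK h
  constructor
  · intro r hr
    obtain ⟨i, hi⟩ := mem_powers_of_prime_card hcard (g' := ((⟨r, hr⟩ : R) : R ⧸ K.subgroupOf R))
      hne
    refine ⟨i, ?_⟩
    have h1 : (((⟨g, hg⟩ : R) ^ i : R) : R ⧸ K.subgroupOf R) = ((⟨r, hr⟩ : R) : R ⧸ K.subgroupOf R) := by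
      rw [QuotientGroup.mk_pow]
      exact hi
    rw [QuotientGroup.eq] at h1
    exact h1
  · intro i h0 hi hmem
    have h1 : ((⟨g, hg⟩ : R) : R ⧸ K.subgroupOf R) ^ i = 1 := by
      rw [← QuotientGroup.mk_pow, QuotientGroup.eq_one_iff]
      exact hmem
    have h2 : orderOf ((⟨g, hg⟩ : R) : R ⧸ K.subgroupOf R) ∣ q := by
      rw [← hcard]
      exact orderOf_dvd_natCard _
    have h3 := orderOf_dvd_of_pow_eq_one h1
    rcases (Nat.dvd_prime hq.out).mp h2 with h | h
    · exact hne (orderOf_eq_one_iff.mp h)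
    · rw [h] at h3
      exact absurd (Nat.le_of_dvd h0 h3) (by omega)

section fam

variable {p q : ℕ} [Fact p.Prime] [Fact q.Prime] {M X : Type} [Group M] [Finite M]
  [Group X] [Finite X] {φ : X →* MulAut M} {E R : Subgroup X}

/-- the subgroup generated by the fixed points of the conjugates of `H` -/
def fam (φ : X →* MulAut M) (H S : Subgroup X) : Subgroup M := ⨆ r : S, Fx φ (cj (r : X) H)

theorem le_fam {H S : Subgroup X} {r : X} (hr : r ∈ S) : Fx φ (cj r H) ≤ fam φ H S :=
  le_iSup (fun r : S => Fx φ (cj (r : X) H)) ⟨r, hr⟩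

theorem fam_le {H S : Subgroup X} {N : Subgroup M} (h : ∀ r ∈ S, Fx φ (cj r H) ≤ N) :
    fam φ H S ≤ N := iSup_le fun r => h r r.2

theorem fx_commute (h3 : T3) (h : SD p q φ E R) {H : Subgroup X} (hH : H ≤ E)
    (hc : Nat.card E = p * Nat.card H) {r s : X} (hr : r ∈ R) (hs : s ∈ R)
    (hne : cj r H ≠ cj s H) : ∀ a ∈ Fx φ (cj r H), ∀ b ∈ Fx φ (cj s H), a * b = b * a :=
  h3 p q M X φ E R h _ _ (sup_eq hc (card_cj _ _) (card_cj _ _) (cj_le h.RE hH hr)
    (cj_le h.RE hH hs) hne)

theorem fam_nd (h2 : T2) (h3 : T3) (h14 : T14) (h : SD p q φ E R) {H : Subgroup X} (hH : H ≤ E)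
    (hc : Nat.card E = p * Nat.card H) {S : Subgroup X} (hS : S ≤ R) : Nd (fam φ H S) := by
  apply h14 M S
  · intro r
    exact h2 p q M X φ E R h _ (cj_le h.RE hH (hS r.2))
  · intro r s
    by_cases e : cj (r : X) H = cj (s : X) H
    · left
      rw [e]
    · right
      exact fx_commute h3 h hH hc (hS r.2) (hS s.2) e

theorem fam_St {H S : Subgroup X} : S ≤ St φ (fam φ H S) := by
  apply le_St
  intro x hx
  unfold fam
  rw [Subgroup.map_iSup]
  apply iSup_le
  intro r
  rw [map_fx, ← cj_mul]
  exact le_fam (S.mul_mem hx r.2)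

theorem fam_E (h : SD p q φ E R) {H : Subgroup X} (hH : H ≤ E) {S : Subgroup X} (hS : S ≤ R) :
    E ≤ St φ (fam φ H S) := by
  apply le_St
  intro e he
  unfold fam
  rw [Subgroup.map_iSup]
  apply iSup_mono
  intro r
  exact St_fx φ h.Eab (cj_le h.RE hH (hS r.2)) he

end fam

theorem t_TW (_h1 : T1) (h2 : T2) (h3 : T3) (h4 : T4) (h5 : T5) (h10 : T10) (h11 : T11)
    (h12 : T12) (h14 : T14) : TW := by
  intro p q hp hq
  have key : ∀ n : ℕ, ∀ (M X : Type) [Group M] [Finite M] [Group X] [Finite X]
      (φ : X →* MulAut M) (E R : Subgroup X), Nat.card M = n → SD p q φ E R → AllLift φ R := by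
    intro n
    induction n using Nat.strong_induction_on with
    | _ n ih =>
    intro M X _ _ _ _ φ E R hn h
    intro V _ _ _ σ hσ hf
    have hcyc := center_cyclic σ hσ hf
    by_cases hab : Subgroup.center M = ⊤
    · refine h10 p q M X φ E R h 1 (E.one_mem) ?_ V σ hσ hf
      intro e _
      refine ⟨0, fun m => ?_⟩
      rw [pow_zero, map_one, MulAut.one_apply]
      exact h.cen e m (by rw [hab]; trivial)
    obtain ⟨H, hH, hrel, hF⟩ := h4 p q M X φ E R h hab
    have hc := card_rel hH hrel
    have ihs : ∀ (M₀ : Subgroup M) (R' : Subgroup X), Nd M₀ → M₀ ≠ ⊤ → E ≤ St φ M₀ → R' ≤ R →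
        AllLift (ra φ M₀) (R'.subgroupOf (St φ M₀)) := by
      intro M₀ R' hnd hne hE hR'
      refine ih (Nat.card M₀) ?_ M₀ (St φ M₀) (ra φ M₀) (E.subgroupOf _) (R'.subgroupOf _) rfl
        (SDsub φ h hnd hE hR')
      rw [← hn]
      by_contra hcon
      exact hne (Subgroup.eq_top_of_le_card M₀ (not_lt.mp hcon))
    have hcenF : Subgroup.center M ≤ Fx φ H := (h2 p q M X φ E R h H hH).le
    have hFfam : ∀ S : Subgroup X, Fx φ H ≤ fam φ H S := by
      intro S
      have := le_fam (φ := φ) (H := H) (S.one_mem)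
      rwa [cj_one] at this
    by_cases hM' : fam φ H R = ⊤
    swap
    · have hnd' : Nd (fam φ H R) := fam_nd h2 h3 h14 h hH hc le_rfl
      have hcz := h5 q M h.sy hcyc _ hnd'
      have hC : Subgroup.centralizer (fam φ H R : Set M) ≠ ⊤ := by
        intro ht
        apply hF
        apply le_antisymm _ hcenF
        intro m hm
        rw [Subgroup.mem_center_iff]
        intro g
        have hg : g ∈ Subgroup.centralizer (fam φ H R : Set M) := by rw [ht]; trivial
        exact (Subgroup.mem_centralizer_iff.mp hg m (hFfam R hm)).symm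
      exact h11 q M X φ R h.cen h.sy _ hnd' fam_St (fam_St.trans (St_centralizer φ _))
        (ihs _ R hnd' hM' (fam_E h hH le_rfl) le_rfl)
        (ihs _ R hcz.1 hC ((fam_E h hH le_rfl).trans (St_centralizer φ _)) le_rfl) V σ hσ hf
    by_cases hnorm : ∀ r ∈ R, cj r H = H
    · have hFt : Fx φ H = ⊤ := by
        rw [eq_top_iff, ← hM']
        apply fam_le
        intro r hr
        rw [hnorm r hr]
      have hlt : H < E := by
        apply lt_of_le_of_ne hH
        intro he
        rw [he] at hc
        have h0 : 0 < Nat.card E := Nat.card_pos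
        have h1 := hp.out.one_lt
        nlinarith
      obtain ⟨x, hxE, hxH⟩ := SetLike.exists_of_lt hlt
      refine h10 p q M X φ E R h x hxE ?_ V σ hσ hf
      have hconj : ∀ x ∈ E, ∀ y ∈ H, x * y * x⁻¹ ∈ H := by
        intro x hx y hy
        rw [h.Eab x hx y (hH hy), mul_assoc, mul_inv_cancel, mul_one]
        exact hy
      intro e he
      obtain ⟨i, hi⟩ := (coset_pow hrel hconj hxE hxH).1 e he
      refine ⟨i, fun m => ?_⟩
      have hm : m ∈ Fx φ H := by rw [hFt]; trivial
      have h1 := mem_Fx.mp hm _ hi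
      have e1 : e = x ^ i * ((x ^ i)⁻¹ * e) := by group
      calc φ e m = φ (x ^ i) (φ ((x ^ i)⁻¹ * e) m) := by
            rw [← MulAut.mul_apply, ← map_mul, ← e1]
        _ = φ (x ^ i) m := by rw [h1]
    · let S : Subgroup R :=
        { carrier := {r | cj (r : X) H = H}
          mul_mem' := by
            intro a b ha hb
            change cj ((a : X) * b) H = H
            rw [cj_mul]
            rw [show cj (b : X) H = H from hb]
            exact ha
          one_mem' := cj_one H
          inv_mem' := by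
            intro a ha
            change cj (a : X)⁻¹ H = H
            have ha' : cj (a : X) H = H := ha
            calc cj (a : X)⁻¹ H = cj (a : X)⁻¹ (cj (a : X) H) := by rw [ha']
              _ = H := by rw [← cj_mul, inv_mul_cancel, cj_one] }
      have hS : S ≠ ⊤ := by
        intro ht
        apply hnorm
        intro r hr
        have h1 : (⟨r, hr⟩ : R) ∈ S := by rw [ht]; trivial
        exact h1
      obtain ⟨K, hKn, hKi, hSK⟩ := exists_index h.Rq S hS
      have hsub : (K.map R.subtype).subgroupOf R = K := by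
        rw [Subgroup.subgroupOf, Subgroup.comap_map_eq_self_of_injective R.subtype_injective]
      have hmem : ∀ (r : X) (hr : r ∈ R), r ∈ K.map R.subtype ↔ (⟨r, hr⟩ : R) ∈ K := by
        intro r hr
        have h1 : (⟨r, hr⟩ : R) ∈ (K.map R.subtype).subgroupOf R ↔ (⟨r, hr⟩ : R) ∈ K := by
          rw [hsub]
        exact h1
      obtain ⟨R₁, hR₁⟩ : ∃ R₁ : Subgroup X, R₁ = K.map R.subtype := ⟨_, rfl⟩
      rw [← hR₁] at hsub
      rw [← hR₁] at hmem
      have hle : R₁ ≤ R := by
        rw [hR₁]
        exact Subgroup.map_subtype_le K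
      have hrelq : R₁.relIndex R = q := by
        rw [Subgroup.relIndex, hsub, hKi]
      have hnorR : ∀ x ∈ R, ∀ y ∈ R₁, x * y * x⁻¹ ∈ R₁ := by
        intro x hx y hy
        have hyR := hle hy
        rw [hmem _ (R.mul_mem (R.mul_mem hx hyR) (R.inv_mem hx))]
        exact hKn.conj_mem ⟨y, hyR⟩ ((hmem y hyR).mp hy) ⟨x, hx⟩
      have hSR : ∀ r ∈ R, cj r H = H → r ∈ R₁ := by
        intro r hr he
        rw [hmem r hr]
        exact hSK (show (⟨r, hr⟩ : R) ∈ S from he)
      have hltR : R₁ < R := by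
        apply lt_of_le_of_ne hle
        intro he
        rw [he, Subgroup.relIndex_self] at hrelq
        exact hq.out.one_lt.ne hrelq
      obtain ⟨g, hgR, hgR₁⟩ := SetLike.exists_of_lt hltR
      obtain ⟨hpow, hpow'⟩ := coset_pow hrelq hnorR hgR hgR₁
      have hnd₀ : Nd (fam φ H R₁) := fam_nd h2 h3 h14 h hH hc hle
      have hcomm : ∀ i : ℕ, 0 < i → i < q → ∀ a ∈ fam φ H R₁, ∀ b ∈ fam φ H R₁,
          a * φ (g ^ i) b = φ (g ^ i) b * a := by
        intro i h0 hi a ha b hb
        have hgi : g ^ i ∈ R := R.pow_mem hgR i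
        have hb' : φ (g ^ i) b ∈ Subgroup.centralizer (fam φ H R₁ : Set M) := by
          have hle1 : fam φ H R₁ ≤
              (Subgroup.centralizer (fam φ H R₁ : Set M)).comap (φ (g ^ i)).toMonoidHom := by
            apply fam_le
            intro y' hy' b hb
            rw [Subgroup.mem_comap]
            change φ (g ^ i) b ∈ _
            have hb2 : φ (g ^ i) b ∈ Fx φ (cj (g ^ i * y') H) := by
              rw [cj_mul]
              exact (fx_cj φ (g ^ i) _ b).mpr hb
            rw [Subgroup.mem_centralizer_iff]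
            intro a ha
            have hle2 : fam φ H R₁ ≤ Subgroup.centralizer ({φ (g ^ i) b} : Set M) := by
              apply fam_le
              intro y hy a ha
              rw [Subgroup.mem_centralizer_singleton_iff]
              apply fx_commute h3 h hH hc (hle hy) (R.mul_mem hgi (hle hy')) ?_ a ha _ hb2
              intro heq
              apply hpow' i h0 hi
              have h6 : cj (y⁻¹ * (g ^ i * y')) H = H := by
                rw [cj_mul, ← heq, ← cj_mul, inv_mul_cancel, cj_one]
              have h7 := hSR _ (R.mul_mem (R.inv_mem (hle hy)) (R.mul_mem hgi (hle hy'))) h6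
              have h8 := R₁.mul_mem (R₁.mul_mem hy h7) (R₁.inv_mem hy')
              have e8 : y * (y⁻¹ * (g ^ i * y')) * y'⁻¹ = g ^ i := by group
              rwa [e8] at h8
            exact Subgroup.mem_centralizer_singleton_iff.mp (hle2 ha)
          exact hle1 hb
        exact Subgroup.mem_centralizer_iff.mp hb' a ha
      have hne₀ : fam φ H R₁ ≠ ⊤ := by
        intro ht
        apply hab
        rw [eq_top_iff]
        intro m _
        rw [Subgroup.mem_center_iff]
        intro a
        have h6 := hcomm 1 one_pos hq.out.one_lt a (by rw [ht]; trivial) (φ (g ^ 1)⁻¹ m)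
          (by rw [ht]; trivial)
        have e6 : φ (g ^ 1) (φ (g ^ 1)⁻¹ m) = m := by
          rw [← MulAut.mul_apply, ← map_mul, mul_inv_cancel, map_one, MulAut.one_apply]
        rwa [e6] at h6
      have hcen₀ : Subgroup.center M ≠ fam φ H R₁ := by
        intro he
        apply hF
        apply le_antisymm _ hcenF
        rw [he]
        exact hFfam R₁
      have htop : (⨆ i : ℕ, (fam φ H R₁).map (φ (g ^ i)).toMonoidHom) = ⊤ := by
        rw [eq_top_iff, ← hM']
        apply fam_le
        intro r hr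
        obtain ⟨i, hi⟩ := hpow r hr
        have h6 : Fx φ (cj r H) = (Fx φ (cj ((g ^ i)⁻¹ * r) H)).map (φ (g ^ i)).toMonoidHom := by
          rw [map_fx, ← cj_mul]
          congr 2
          group
        rw [h6]
        refine le_trans (Subgroup.map_mono (le_fam hi)) ?_
        exact le_iSup (fun i : ℕ => (fam φ H R₁).map (φ (g ^ i)).toMonoidHom) i
      exact h12 q M X φ R R₁ g h.cen h.sy hle hgR hrelq hnorR hgR₁ _ hnd₀ hcen₀ fam_St hcomm htop
        (ihs _ R₁ hnd₀ hne₀ (fam_E h hH hle) hle) V σ hσ hf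
  intro M X _ _ _ _ φ E R h
  exact key (Nat.card M) M X φ E R rfl h

end Pool.Agent.K3h10.SY
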