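import Pool.Agent.K3h83.IN.Stm3

/-!
# Conjugate subgroups, fixed points and stabilizers

Preparations for the assembly of the main statement `TW`.
-/

set_option autoImplicit false

open scoped BigOperators Classical

noncomputable section

namespace Pool.Agent.K3h10.SY

open Pool.Agent.K3h83.IN

section gr

variable {X : Type} [Group X]

/-- the conjugate `r H r⁻¹` -/
def cj (r : X) (H : Subgroup X) : Subgroup X := H.map (MulAut.conj r).toMonoidHom

theorem mem_cj {r : X} {H : Subgroup X} {x : X} : x ∈ cj r H ↔ r⁻¹ * x * r ∈ H := by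
  unfold cj
  rw [Subgroup.mem_map]
  constructor
  · rintro ⟨h, hh, rfl⟩
    change r⁻¹ * (r * h * r⁻¹) * r ∈ H
    have e : r⁻¹ * (r * h * r⁻¹) * r = h := by group
    rw [e]
    exact hh
  · intro h
    refine ⟨_, h, ?_⟩
    change r * (r⁻¹ * x * r) * r⁻¹ = x
    group

theorem cj_mul (r s : X) (H : Subgroup X) : cj (r * s) H = cj r (cj s H) := by
  ext x
  rw [mem_cj, mem_cj, mem_cj]
  have e : (r * s)⁻¹ * x * (r * s) = s⁻¹ * (r⁻¹ * x * r) * s := by group
  rw [e]

theorem cj_one (H : Subgroup X) : cj 1 H = H := by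
  ext x
  rw [mem_cj]
  have e : (1 : X)⁻¹ * x * 1 = x := by group
  rw [e]

theorem card_cj (r : X) (H : Subgroup X) : Nat.card (cj r H) = Nat.card H :=
  Subgroup.card_map_of_injective (MulAut.conj r).injective

theorem cj_le {E R : Subgroup X} (RE : ∀ r ∈ R, ∀ e ∈ E, r * e * r⁻¹ ∈ E) {H : Subgroup X}
    (hH : H ≤ E) {r : X} (hr : r ∈ R) : cj r H ≤ E := by
  intro x hx
  rw [mem_cj] at hx
  have := RE r hr _ (hH hx)
  have e : r * (r⁻¹ * x * r) * r⁻¹ = x := by group
  rwa [e] at this

theorem cj_inj {r : X} {H K : Subgroup X} (h : cj r H = cj r K) : H = K := by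
  have := congrArg (cj r⁻¹) h
  rwa [← cj_mul, ← cj_mul, inv_mul_cancel, cj_one, cj_one] at this

/-- two different subgroups of index `p` of `E` generate `E` -/
theorem sup_eq [Finite X] {p : ℕ} [hp : Fact p.Prime] {E H₁ H₂ : Subgroup X} {c : ℕ}
    (hE : Nat.card E = p * c) (c1 : Nat.card H₁ = c) (c2 : Nat.card H₂ = c)
    (h1 : H₁ ≤ E) (h2 : H₂ ≤ E) (hne : H₁ ≠ H₂) : H₁ ⊔ H₂ = E := by
  have hc : 0 < c := by rw [← c1]; exact Nat.card_pos
  have d1 : c ∣ Nat.card (H₁ ⊔ H₂ : Subgroup X) := by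
    rw [← c1]
    exact Subgroup.card_dvd_of_le le_sup_left
  obtain ⟨d, hd⟩ := d1
  have d2 : Nat.card (H₁ ⊔ H₂ : Subgroup X) ∣ Nat.card E :=
    Subgroup.card_dvd_of_le (sup_le h1 h2)
  rw [hd, hE, mul_comm p c] at d2
  have d3 : d ∣ p := Nat.dvd_of_mul_dvd_mul_left hc d2
  rcases (Nat.dvd_prime hp.out).mp d3 with h | h
  · exfalso
    apply hne
    have e1 : H₁ = H₁ ⊔ H₂ := Subgroup.eq_of_le_of_card_ge le_sup_left (by
      rw [hd, h, c1, mul_one])
    have e2 : H₂ = H₁ ⊔ H₂ := Subgroup.eq_of_le_of_card_ge le_sup_right (by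
      rw [hd, h, c2, mul_one])
    rw [e1, ← e2]
  · exact Subgroup.eq_of_le_of_card_ge (sup_le h1 h2) (by rw [hd, hE, h, mul_comm])

theorem card_rel [Finite X] {p : ℕ} {E H : Subgroup X} (h : H ≤ E) (hi : H.relIndex E = p) :
    Nat.card E = p * Nat.card H := by
  have h1 := Subgroup.card_mul_index (H.subgroupOf E)
  rw [Nat.card_congr (Subgroup.subgroupOfEquivOfLe h).toEquiv] at h1
  change Nat.card H * H.relIndex E = Nat.card E at h1
  rw [← h1, hi, mul_comm]

/-- a proper subgroup of a finite `q`-group is contained in a normal subgroup of index `q` -/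
theorem exists_index {q : ℕ} [hq : Fact q.Prime] {R : Type} [Group R] [Finite R]
    (hR : IsPGroup q R) (S : Subgroup R) (hS : S ≠ ⊤) :
    ∃ K : Subgroup R, K.Normal ∧ K.index = q ∧ S ≤ K := by
  obtain ⟨n, hn⟩ := IsPGroup.iff_card.mp hR
  obtain ⟨m, hm⟩ := IsPGroup.iff_card.mp (hR.to_subgroup S)
  have hlt : m < n := by
    have h1 : q ^ m ≤ q ^ n := by
      rw [← hn, ← hm]
      exact Nat.le_of_dvd Nat.card_pos (Subgroup.card_subgroup_dvd_card S)
    have h2 : m ≤ n := (Nat.pow_le_pow_iff_right hq.out.one_lt).mp h1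
    rcases lt_or_eq_of_le h2 with h | h
    · exact h
    · exfalso
      apply hS
      apply Subgroup.eq_top_of_card_eq
      rw [hm, hn, h]
  obtain ⟨k, rfl⟩ : ∃ k, n = k + 1 := ⟨n - 1, by omega⟩
  obtain ⟨K, hK, hSK⟩ := Sylow.exists_subgroup_card_pow_prime_le (G := R) q (n := m) (m := k)
    (by rw [hn]; exact pow_dvd_pow q (Nat.le_succ k)) S hm (by omega)
  have hidx : K.index = q := by
    have h1 := Subgroup.card_mul_index K
    rw [hn, hK, pow_succ] at h1
    exact Nat.eq_of_mul_eq_mul_left (pow_pos hq.out.pos k) h1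
  refine ⟨K, ?_, hidx, hSK⟩
  apply Subgroup.normal_of_index_eq_minFac_card
  rw [hidx, hn, Nat.Prime.pow_minFac hq.out (Nat.succ_ne_zero k)]

end gr

section act

variable {M X : Type} [Group M] [Group X] (φ : X →* MulAut M)

theorem fx_cj (r : X) (H : Subgroup X) (m : M) : φ r m ∈ Fx φ (cj r H) ↔ m ∈ Fx φ H := by
  rw [mem_Fx, mem_Fx]
  constructor
  · intro h x hx
    have h1 := h (r * x * r⁻¹) (by
      rw [mem_cj]
      have e : r⁻¹ * (r * x * r⁻¹) * r = x := by group
      rwa [e])
    apply (φ r).injective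
    rw [← MulAut.mul_apply, ← map_mul]
    rw [← MulAut.mul_apply, ← map_mul] at h1
    have e : r * x * r⁻¹ * r = r * x := by group
    rwa [e] at h1
  · intro h x hx
    rw [mem_cj] at hx
    have h1 := h _ hx
    rw [← MulAut.mul_apply, ← map_mul]
    have e : x * r = r * (r⁻¹ * x * r) := by group
    rw [e, map_mul, MulAut.mul_apply, h1]

theorem map_fx (r : X) (H : Subgroup X) :
    (Fx φ H).map (φ r).toMonoidHom = Fx φ (cj r H) := by
  ext m
  rw [Subgroup.mem_map]
  constructor
  · rintro ⟨n, hn, rfl⟩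
    exact (fx_cj φ r H n).mpr hn
  · intro h
    have e : φ r (φ r⁻¹ m) = m := by
      rw [← MulAut.mul_apply, ← map_mul, mul_inv_cancel, map_one, MulAut.one_apply]
    refine ⟨φ r⁻¹ m, ?_, e⟩
    rw [← e] at h
    exact (fx_cj φ r H _).mp h

theorem fx_anti {H K : Subgroup X} (h : H ≤ K) : Fx φ K ≤ Fx φ H :=
  fun _ hm x hx => hm x (h hx)

/-- a subgroup is contained in the stabilizer if it maps `M₀` to itself -/
theorem le_St {M₀ : Subgroup M} {R' : Subgroup X}
    (h : ∀ x ∈ R', M₀.map (φ x).toMonoidHom ≤ M₀) : R' ≤ St φ M₀ := by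
  intro x hx
  rw [mem_St]
  intro m
  constructor
  · intro hm
    exact h x hx (Subgroup.mem_map.mpr ⟨m, hm, rfl⟩)
  · intro hm
    have h1 := h x⁻¹ (R'.inv_mem hx) (Subgroup.mem_map.mpr ⟨_, hm, rfl⟩)
    have e : φ x⁻¹ (φ x m) = m := by
      rw [← MulAut.mul_apply, ← map_mul, inv_mul_cancel, map_one, MulAut.one_apply]
    change φ x⁻¹ (φ x m) ∈ M₀ at h1
    rwa [e] at h1

theorem St_centralizer (M₀ : Subgroup M) :
    St φ M₀ ≤ St φ (Subgroup.centralizer (M₀ : Set M)) := by
  apply le_St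
  intro x hx
  rintro _ ⟨m, hm, rfl⟩
  rw [Subgroup.mem_centralizer_iff]
  intro n hn
  have hm' := Subgroup.mem_centralizer_iff.mp hm
  have hx' := (mem_St.mp ((St φ M₀).inv_mem hx) n).mp hn
  have h1 := hm' _ hx'
  have e : φ x (φ x⁻¹ n) = n := by
    rw [← MulAut.mul_apply, ← map_mul, mul_inv_cancel, map_one, MulAut.one_apply]
  have h2 := congrArg (φ x) h1
  rw [map_mul, map_mul, e] at h2
  exact h2

/-- the fixed points of a subgroup of an abelian group are stable -/
theorem St_fx {E H : Subgroup X} (Eab : ∀ a ∈ E, ∀ b ∈ E, a * b = b * a) (hH : H ≤ E) {e : X}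
    (he : e ∈ E) : (Fx φ H).map (φ e).toMonoidHom ≤ Fx φ H := by
  rintro _ ⟨m, hm, rfl⟩
  rw [mem_Fx]
  intro h hh
  change φ h (φ e m) = φ e m
  have hm' : ∀ h ∈ H, φ h m = m := hm
  rw [← MulAut.mul_apply, ← map_mul, Eab h (hH hh) e he, map_mul, MulAut.mul_apply, hm' h hh]

/-- the center of a non-degenerate subgroup -/
theorem center_iff {M₀ : Subgroup M} (h : Nd M₀) (z : M₀) :
    z ∈ Subgroup.center M₀ ↔ (z : M) ∈ Subgroup.center M := by
  constructor
  · intro hz
    apply h.nd z z.2
    intro n hn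
    have := Subgroup.mem_center_iff.mp hz ⟨n, hn⟩
    exact (congrArg Subtype.val this).symm
  · intro hz
    rw [Subgroup.mem_center_iff]
    intro n
    apply Subtype.ext
    exact Subgroup.mem_center_iff.mp hz n

/-- the hypotheses for a stable non-degenerate subgroup -/
theorem SDsub {p q : ℕ} {E R R' : Subgroup X} (h : SD p q φ E R) {M₀ : Subgroup M} (hn : Nd M₀)
    (hE : E ≤ St φ M₀) (hR : R' ≤ R) :
    SD p q (ra φ M₀) (E.subgroupOf (St φ M₀)) (R'.subgroupOf (St φ M₀)) := by
  refine ⟨h.ne, ?_, ⟨?_, ?_⟩, ?_, ?_, ?_, ?_, ?_⟩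
  · intro x z hz
    apply Subtype.ext
    rw [ra_coe]
    exact h.cen _ _ ((center_iff hn z).mp hz)
  · intro m
    rw [center_iff hn]
    exact h.sy.pow m
  · intro a b
    rw [center_iff hn]
    exact h.sy.com a b
  · intro a ha b hb
    apply Subtype.ext
    exact h.Eab a ha b hb
  · intro a ha
    apply Subtype.ext
    exact h.Epow a ha
  · intro r hr e he
    exact h.RE r (hR hr) e he
  · refine h.Rq.of_injective
      ((((St φ M₀).subtype).comp (R'.subgroupOf (St φ M₀)).subtype).codRestrict R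
        (fun x => hR x.2)) ?_
    intro a b hab
    apply Subtype.ext
    apply Subtype.ext
    have h1 : (a : St φ M₀).1 = (b : St φ M₀).1 := congrArg (fun z : R => (z : X)) hab
    exact h1
  · intro m hm
    rw [center_iff hn]
    apply h.fpf
    intro e he
    have h1 := hm ⟨e, hE he⟩ he
    have h2 := congrArg Subtype.val h1
    rwa [ra_coe] at h2

end act

/-- the center is cyclic if there is a representation which is irreducible and faithful on it -/
theorem center_cyclic {M V : Type} [Group M] [Finite M] [AddCommGroup V] [Module ℂ V]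
    [FiniteDimensional ℂ V] (σ : Representation ℂ M V) (hσ : σ.IsIrreducible)
    (hf : ∀ z ∈ Subgroup.center M, σ z = 1 → z = 1) : IsCyclic (Subgroup.center M) := by
  have key : ∀ z : Subgroup.center M, ∃ c : ℂ, σ (z : M) = c • LinearMap.id := by
    intro z
    apply Pool.Agent.H254R3.IN.schur σ hσ
    intro h v
    have e : (z : M) * h = h * z := (Subgroup.mem_center_iff.mp z.2 h).symm
    rw [← Module.End.mul_apply, ← map_mul, e, map_mul, Module.End.mul_apply]
  choose c hc using key
  have hV : ∃ v : V, v ≠ 0 := by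
    have : Nontrivial V := Pool.Agent.H254R3.IN.irr_nontrivial σ hσ
    exact exists_ne 0
  obtain ⟨v, hv⟩ := hV
  have hcv : ∀ z : Subgroup.center M, σ (z : M) v = c z • v := by
    intro z
    rw [hc z]
    rfl
  have cinj : ∀ a b : ℂ, a • v = b • v → a = b := by
    intro a b hab
    have : (a - b) • v = 0 := by rw [sub_smul, hab, sub_self]
    rcases smul_eq_zero.mp this with h | h
    · exact sub_eq_zero.mp h
    · exact absurd h hv
  let f : Subgroup.center M →* ℂ :=
    { toFun := c
      map_one' := by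
        apply cinj
        rw [← hcv 1]
        change σ (1 : M) v = _
        rw [map_one]
        simp
      map_mul' := by
        intro a b
        apply cinj
        rw [← hcv, Subgroup.coe_mul, map_mul, Module.End.mul_apply, hcv b, map_smul, hcv a,
          smul_smul, mul_comm] }
  apply isCyclic_of_injective_ringHom f
  rw [injective_iff_map_eq_one]
  intro z hz
  apply Subtype.ext
  apply hf z z.2
  rw [hc z]
  have : c z = 1 := hz
  rw [this, one_smul]
  rfl

end Pool.Agent.K3h10.SY
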